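import Mathlib

open CategoryTheory Limits AlgebraicGeometry Polynomial TensorProduct

namespace Pool.Agent.Results.MP_024832_nt.FiniteSolubleLocus

/-! ### The definitions used in the statement -/

/-- `Y` has points over every completion of `ℚ`: a real point and a point over `ℚ_l` for every
prime `l`.  (Every morphism between schemes admitting a morphism to `Spec ℚ` is a morphism over
`Spec ℚ`, so no structure morphism has to be mentioned.) -/
def EverywhereLocallySoluble (Y : Scheme.{0}) : Prop :=
  Nonempty (Spec (.of ℝ) ⟶ Y) ∧ ∀ (l : ℕ) [Fact l.Prime], Nonempty (Spec (.of ℚ_[l]) ⟶ Y)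

/-- The set `Z(φ)` of those rational points `p : Spec ℚ ⟶ E` for which the fibre
`X_p = X ×_E Spec ℚ` has points everywhere locally. -/
def solubleLocus {X E : Scheme.{0}} (φ : X ⟶ E) : Set (Spec (.of ℚ) ⟶ E) :=
  {p | EverywhereLocallySoluble (pullback φ p)}

/-- An integral variety over `ℚ`: an integral scheme, separated and of finite type over `ℚ`. -/
def IsIntegralVariety (X : Scheme.{0}) : Prop :=
  IsIntegral X ∧ ∃ s : X ⟶ Spec (.of ℚ), IsSeparated s ∧ LocallyOfFiniteType s ∧ QuasiCompact s

/-- A fibration `φ : X ⟶ E`: `X` is an integral variety over `ℚ`, `φ` is dominant, and the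
generic fibre of `φ` is smooth and geometrically irreducible over the function field of `E`. -/
structure IsFibration {X E : Scheme.{0}} [IrreducibleSpace E] (φ : X ⟶ E) : Prop where
  variety : IsIntegralVariety X
  dominant : IsDominant φ
  smooth : Smooth (φ.fiberToSpecResidueField (genericPoint E))
  geomIrred : GeometricallyIrreducible (φ.fiberToSpecResidueField (genericPoint E))

/-! ### Scheme-theoretic images of integral schemes are integral -/

lemma isReduced_image {X Y : Scheme.{0}} (f : X ⟶ Y) [QuasiCompact f] [IsReduced X] :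
    IsReduced f.image := by
  have h1 : ∀ U : Y.affineOpens, _root_.IsReduced Γ(f.image, f.imageι ⁻¹ᵁ U.1) := fun U =>
    isReduced_of_injective _ (f.toImage_app_injective U)
  have h2 : ∀ U : Y.affineOpens, IsReduced (f.imageι ⁻¹ᵁ U.1).toScheme := by
    intro U
    have haff : IsAffineOpen (f.imageι ⁻¹ᵁ U.1) := U.2.preimage _
    have : IsAffine (f.imageι ⁻¹ᵁ U.1).toScheme := haff
    have : _root_.IsReduced Γ((f.imageι ⁻¹ᵁ U.1).toScheme, ⊤) := by
      have := h1 U
      exact isReduced_of_injective _ (f.imageι ⁻¹ᵁ U.1).topIso.commRingCatIsoToRingEquiv.injective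
    exact isReduced_of_isAffine_isReduced _
  let 𝒰 : f.image.OpenCover := f.image.openCoverOfIsOpenCover
    (fun U : Y.affineOpens => f.imageι ⁻¹ᵁ U.1) (by
      have h := congrArg (fun V => f.imageι ⁻¹ᵁ V) (iSup_affineOpens_eq_top Y)
      simp only [Scheme.Hom.preimage_iSup] at h
      exact h)
  have : ∀ i, IsReduced (𝒰.X i) := fun i => h2 i
  exact IsReduced.of_openCover _ 𝒰

lemma isIntegral_image {X Y : Scheme.{0}} (f : X ⟶ Y) [QuasiCompact f] [IsIntegral X] :
    IsIntegral f.image := by
  have h1 : IsReduced f.image := isReduced_image f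
  have h2 : IrreducibleSpace f.image := by
    have hd : DenseRange f.toImage := f.toImage.denseRange
    have h3 : IsIrreducible (Set.range f.toImage) := by
      rw [← Set.image_univ]
      exact (IrreducibleSpace.isIrreducible_univ X).image _ f.toImage.continuous.continuousOn
    have h4 := h3.closure
    rw [hd.closure_range] at h4
    exact (irreducibleSpace_def _).mpr h4
  exact isIntegral_of_irreducibleSpace_of_isReduced _

/-! ### The projective Weierstrass curve -/

attribute [local instance] MvPolynomial.gradedAlgebra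

variable (W : WeierstrassCurve ℚ)

/-- The evaluation `ℚ[X, Y, Z] → ℚ[x, y] / (W(x, y))` at `X ↦ x, Y ↦ y, Z ↦ 1`. -/
noncomputable def dehom : MvPolynomial (Fin 3) ℚ →+* W.toAffine.CoordinateRing :=
  (MvPolynomial.aeval
    ![WeierstrassCurve.Affine.CoordinateRing.mk W.toAffine (Polynomial.C Polynomial.X),
      WeierstrassCurve.Affine.CoordinateRing.mk W.toAffine Polynomial.X, 1]).toRingHom

lemma dehom_Z : dehom W (MvPolynomial.X 2) = 1 := by
  simp [dehom]

lemma Z_mem : (MvPolynomial.X 2 : MvPolynomial (Fin 3) ℚ) ∈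
    MvPolynomial.homogeneousSubmodule (Fin 3) ℚ 1 := MvPolynomial.isHomogeneous_X _ _

/-- The ring map from the coordinate ring `ℚ[X/Z, Y/Z]` of the chart `Z ≠ 0` of the projective
plane to the coordinate ring of the affine Weierstrass curve, induced by `dehom`
(`X/Z ↦ x, Y/Z ↦ y`). -/
noncomputable def chartMap :
    HomogeneousLocalization.Away (MvPolynomial.homogeneousSubmodule (Fin 3) ℚ)
      (MvPolynomial.X 2) →+* W.toAffine.CoordinateRing :=
  (IsLocalization.Away.lift (S := Localization.Away (MvPolynomial.X 2 : MvPolynomial (Fin 3) ℚ))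
      (MvPolynomial.X 2 : MvPolynomial (Fin 3) ℚ) (g := dehom W)
      (by rw [dehom_Z]; exact isUnit_one)).comp
    (algebraMap _ (Localization.Away (MvPolynomial.X 2 : MvPolynomial (Fin 3) ℚ)))

open HomogeneousLocalization in
lemma chartMap_mk (d : ℕ) (a : MvPolynomial (Fin 3) ℚ)
    (ha : a ∈ MvPolynomial.homogeneousSubmodule (Fin 3) ℚ (d • 1)) :
    chartMap W (Away.mk _ Z_mem d a ha) = dehom W a := by
  rw [chartMap, RingHom.comp_apply, HomogeneousLocalization.algebraMap_apply, Away.val_mk,
    Localization.mk_eq_mk', IsLocalization.Away.lift, IsLocalization.lift_mk'_spec]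
  simp [dehom_Z]

lemma chartMap_surjective : Function.Surjective (chartMap W) := by
  have hx : (MvPolynomial.X 0 : MvPolynomial (Fin 3) ℚ) ∈
    MvPolynomial.homogeneousSubmodule (Fin 3) ℚ (1 • 1) := by
      simpa using MvPolynomial.isHomogeneous_X ℚ (0 : Fin 3)
  have hy : (MvPolynomial.X 1 : MvPolynomial (Fin 3) ℚ) ∈
    MvPolynomial.homogeneousSubmodule (Fin 3) ℚ (1 • 1) := by
      simpa using MvPolynomial.isHomogeneous_X ℚ (1 : Fin 3)
  intro z
  obtain ⟨p, rfl⟩ := AdjoinRoot.mk_surjective z
  suffices h : (Set.univ : Set _) ⊆ (chartMap W).range.comap (AdjoinRoot.mk W.toAffine.polynomial) from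
    h (Set.mem_univ p)
  intro p _
  induction p using Polynomial.induction_on' with
  | add p q hp hq => exact add_mem (hp trivial) (hq trivial)
  | monomial n a =>
    rw [← Polynomial.C_mul_X_pow_eq_monomial]
    refine mul_mem ?_ (pow_mem ?_ _)
    · induction a using Polynomial.induction_on' with
      | add p q hp hq => rw [Polynomial.C_add]; exact add_mem (hp trivial) (hq trivial)
      | monomial m c =>
        rw [← Polynomial.C_mul_X_pow_eq_monomial, Polynomial.C_mul, Polynomial.C_pow]
        refine mul_mem ?_ (pow_mem ?_ _)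
        · refine ⟨HomogeneousLocalization.Away.mk _ Z_mem 0 (MvPolynomial.C c)
            (by simp), ?_⟩
          rw [chartMap_mk]
          exact congrArg (fun f : ℚ →+* W.toAffine.CoordinateRing => f c) (RingHom.ext_rat
            ((dehom W).comp MvPolynomial.C)
            ((AdjoinRoot.mk W.toAffine.polynomial).comp (Polynomial.C.comp Polynomial.C)))
        · exact ⟨HomogeneousLocalization.Away.mk _ Z_mem 1 _ hx, by rw [chartMap_mk]; simp [dehom]⟩
    · exact ⟨HomogeneousLocalization.Away.mk _ Z_mem 1 _ hy, by rw [chartMap_mk]; simp [dehom]⟩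

/-- The affine Weierstrass curve `Spec ℚ[x, y] / (W(x, y))`, embedded in the projective plane
`ℙ² = Proj ℚ[X, Y, Z]` by `(x, y) ↦ (x : y : 1)`. -/
noncomputable def affineToPlane : Spec (.of W.toAffine.CoordinateRing) ⟶
    Proj (MvPolynomial.homogeneousSubmodule (Fin 3) ℚ) :=
  Spec.map (CommRingCat.ofHom (chartMap W)) ≫
    Proj.awayι (MvPolynomial.homogeneousSubmodule (Fin 3) ℚ) (MvPolynomial.X 2) Z_mem one_pos

/-- The projective Weierstrass curve: the closure (scheme-theoretic image) in the projective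
plane of the affine Weierstrass curve. -/
noncomputable def projCurve : Scheme.{0} := (affineToPlane W).image

instance : IsImmersion (affineToPlane W) := by
  have : IsClosedImmersion (Spec.map (CommRingCat.ofHom (chartMap W))) :=
    IsClosedImmersion.spec_of_surjective _ (chartMap_surjective W)
  unfold affineToPlane
  exact IsImmersion.comp _ _

instance : QuasiCompact (affineToPlane W) := by
  unfold affineToPlane
  infer_instance

/-- the affine chart of the projective Weierstrass curve -/
noncomputable def openChart : Spec (.of W.toAffine.CoordinateRing) ⟶ projCurve W :=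
  (affineToPlane W).toImage

instance : IsOpenImmersion (openChart W) :=
  inferInstanceAs (IsOpenImmersion (affineToPlane W).toImage)

instance : IsDominant (openChart W) :=
  inferInstanceAs (IsDominant (affineToPlane W).toImage)

instance : IsIntegral (projCurve W) := isIntegral_image (affineToPlane W)

/-- `s³ + d t³ + d²` as a polynomial in `s` over `A[t]`. -/
noncomputable def cubicPoly (A : Type) [CommRing A] (d : A) : A[X][X] :=
  X ^ 3 + C (C d * X ^ 3 + C (d ^ 2))

/-- `A[t, s] / (s³ + d t³ + d²)` -/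
noncomputable abbrev CubicRing (A : Type) [CommRing A] (d : A) : Type := AdjoinRoot (cubicPoly A d)

lemma cubicPoly_monic (A : Type) [CommRing A] [Nontrivial A] (d : A) : (cubicPoly A d).Monic := by
  unfold cubicPoly
  exact monic_X_pow_add_C _ (by norm_num)

lemma cubic_coeffs {K : Type} [Field K] {e3 e2 e1 e0 : K}
    (h : C e3 * X ^ 3 + C e2 * X ^ 2 + C e1 * X + C e0 = (0 : K[X])) :
    e3 = 0 ∧ e2 = 0 ∧ e1 = 0 ∧ e0 = 0 := by
  have h3 := congrArg (fun p => coeff p 3) h
  have h2 := congrArg (fun p => coeff p 2) h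
  have h1 := congrArg (fun p => coeff p 1) h
  have h0 := congrArg (fun p => coeff p 0) h
  simp [coeff_X, coeff_C] at h3 h2 h1 h0
  exact ⟨h3, h2, h1, h0⟩

lemma not_cube {K : Type} [Field K] [CharZero K] {d : K} (hd : d ≠ 0) (q : K[X]) :
    q ^ 3 ≠ -(C d * X ^ 3 + C (d ^ 2)) := by
  intro h
  have hdeg : (-(C d * X ^ 3 + C (d ^ 2))).natDegree = 3 := by
    rw [natDegree_neg]
    compute_degree!
  have hq : q.natDegree = 1 := by
    have := congrArg natDegree h
    rw [natDegree_pow, hdeg] at this
    omega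
  obtain ⟨a, b, rfl⟩ : ∃ a b, q = C a * X + C b := by
    exact exists_eq_X_add_C_of_natDegree_le_one hq.le
  have h' : C (a ^ 3 + d) * X ^ 3 + C (3 * a ^ 2 * b) * X ^ 2 + C (3 * a * b ^ 2) * X
      + C (b ^ 3 + d ^ 2) = (0 : K[X]) := by
    simp only [map_add, map_mul, map_pow, map_ofNat] at h ⊢
    linear_combination h
  obtain ⟨h3, h2, -, h0⟩ := cubic_coeffs h'
  have ha : a ≠ 0 := by
    rintro rfl
    apply hd; simpa using h3
  have hb : b = 0 := by
    simpa [ha] using h2
  rw [hb] at h0
  apply hd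
  simpa using h0

lemma isDomain_cubicRing (K : Type) [Field K] [CharZero K] {d : K} (hd : d ≠ 0) :
    IsDomain (CubicRing K d) := by
  apply AdjoinRoot.isDomain_of_prime
  rw [← irreducible_iff_prime]
  rw [Monic.irreducible_iff_irreducible_map_fraction_map (K := FractionRing K[X]) (cubicPoly_monic K d)]
  have : (cubicPoly K d).map (algebraMap K[X] (FractionRing K[X])) =
      X ^ 3 - C (algebraMap K[X] (FractionRing K[X]) (-(C d * X ^ 3 + C (d ^ 2)))) := by
    simp [cubicPoly]
    ring
  rw [this]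
  apply X_pow_sub_C_irreducible_of_prime Nat.prime_three
  intro b hb
  have hint : IsIntegral K[X] b := by
    refine ⟨X ^ 3 - C (-(C d * X ^ 3 + C (d ^ 2))), monic_X_pow_sub_C _ (by norm_num), ?_⟩
    simp only [eval₂_sub, eval₂_pow, eval₂_X, eval₂_C, hb, sub_self]
  obtain ⟨q, rfl⟩ := IsIntegrallyClosed.isIntegral_iff.mp hint
  rw [← map_pow] at hb
  exact not_cube hd q (IsFractionRing.injective K[X] (FractionRing K[X]) hb)

noncomputable def polyTensor (A B : Type) [CommRing A] [CommRing B] [Algebra A B] :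
    (B ⊗[A] A[X]) ≃+* B[X] := (polyEquivTensor A B).symm.toRingEquiv

lemma polyTensor_one_tmul (A B : Type) [CommRing A] [CommRing B] [Algebra A B] (p : A[X]) :
    polyTensor A B (1 ⊗ₜ p) = p.map (algebraMap A B) := by
  simp only [polyTensor]
  change (polyEquivTensor A B).symm (1 ⊗ₜ p) = _
  rw [polyEquivTensor_symm_apply_tmul_eq_smul, one_smul]

noncomputable def cubicBaseChange (A B : Type) [CommRing A] [CommRing B] [Algebra A B] (d : A) :
    (B ⊗[A] CubicRing A d) ≃+* CubicRing B (algebraMap A B d) :=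
  (AdjoinRoot.tensorAlgEquiv (R := A) (S := A[X]) (T := B) (cubicPoly A d) _ rfl).toRingEquiv.trans
    (AdjoinRoot.mapRingEquiv (polyTensor A B) _ _ (by
      have : ((cubicPoly A d).map (Algebra.TensorProduct.includeRight :
          A[X] →ₐ[A] (B ⊗[A] A[X])).toRingHom).map (polyTensor A B : (B ⊗[A] A[X]) →+* B[X]) =
          cubicPoly B (algebraMap A B d) := by
        simp [cubicPoly, polyTensor_one_tmul]
      rw [this]))

lemma isDomain_tensor (A K : Type) [CommRing A] [Field K] [CharZero K] [Algebra A K] (d : A)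
    (hd : IsUnit d) : IsDomain (CubicRing A d ⊗[A] K) := by
  have h1 : IsDomain (CubicRing K (algebraMap A K d)) :=
    isDomain_cubicRing K (hd.map (algebraMap A K)).ne_zero
  have e := (Algebra.TensorProduct.comm A (CubicRing A d) K).toRingEquiv.trans
    (cubicBaseChange A K d)
  exact e.toMulEquiv.isDomain _

instance : ObjectProperty.IsClosedUnderIsomorphisms (C := Scheme.{0}) (IsIntegral ·) :=
  ⟨fun e _ ↦ IsIntegral.of_isIso e.hom⟩

theorem geomIntegral (A : Type) [CommRing A] [Algebra ℚ A] (d : A) (hd : IsUnit d) :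
    GeometricallyIntegral (Spec.map (CommRingCat.ofHom (algebraMap A (CubicRing A d)))) := by
  rw [geometricallyIntegral_iff, geometrically_iff_of_commRing_of_isClosedUnderIsomorphisms]
  intro K _ _
  have : CharZero K := charZero_of_injective_ringHom
    ((algebraMap A K).comp (algebraMap ℚ A)).injective
  have := isDomain_tensor A K d hd
  exact IsIntegral.of_isIso (pullbackSpecIso A (CubicRing A d) K).inv

section points

variable {A : Type} [CommRing A] {d : A} {B : Type} [CommRing B] [Algebra A B]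

/-- the coordinate `t` -/
noncomputable def tC (A : Type) [CommRing A] (d : A) : CubicRing A d := AdjoinRoot.of _ X
/-- the coordinate `s` -/
noncomputable def sC (A : Type) [CommRing A] (d : A) : CubicRing A d := AdjoinRoot.root _

lemma rel (A : Type) [CommRing A] (d : A) :
    (sC A d) ^ 3 + algebraMap A _ d * (tC A d) ^ 3 + algebraMap A _ d ^ 2 = 0 := by
  have h : AdjoinRoot.mk (cubicPoly A d) (X ^ 3 + C (C d * X ^ 3 + C (d ^ 2))) = 0 :=
    AdjoinRoot.mk_self
  simp only [map_add, map_mul, map_pow] at h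
  rw [← h, add_assoc]
  rfl

/-- algebra map given by a point -/
noncomputable def pointHom (t s : B) (h : s ^ 3 + algebraMap A B d * t ^ 3 + algebraMap A B d ^ 2 = 0) :
    CubicRing A d →ₐ[A] B :=
  AdjoinRoot.liftAlgHom _ (aeval t) s (by
    simp only [cubicPoly, eval₂_add, eval₂_pow, eval₂_X, eval₂_C]
    simp
    rw [← add_assoc]; exact h)

lemma pointHom_t (t s : B) (h : s ^ 3 + algebraMap A B d * t ^ 3 + algebraMap A B d ^ 2 = 0) :
    pointHom t s h (tC A d) = t := by
  simp [pointHom, tC]

lemma pointHom_s (t s : B) (h : s ^ 3 + algebraMap A B d * t ^ 3 + algebraMap A B d ^ 2 = 0) :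
    pointHom t s h (sC A d) = s := by
  simp [pointHom, sC]

lemma algHom_ext' (f g : CubicRing A d →ₐ[A] B) (ht : f (tC A d) = g (tC A d))
    (hs : f (sC A d) = g (sC A d)) : f = g := by
  apply AdjoinRoot.algHom_ext'
  · apply Polynomial.algHom_ext
    exact ht
  · exact hs

end points

lemma formallySmooth (A : Type) [CommRing A] [Algebra ℚ A] (d : A) (hd : IsUnit d) :
    Algebra.FormallySmooth A (CubicRing A d) := by
  refine Algebra.FormallySmooth.iff_comp_surjective.mpr ?_
  intro B _ _ I hI f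
  have hI' : ∀ x ∈ I, x * x = 0 := by
    intro x hx
    have : x * x ∈ I ^ 2 := by rw [sq]; exact Ideal.mul_mem_mul hx hx
    rwa [hI] at this
  obtain ⟨t, ht⟩ := Ideal.Quotient.mk_surjective (f (tC A d))
  obtain ⟨s, hs⟩ := Ideal.Quotient.mk_surjective (f (sC A d))
  obtain ⟨e, he⟩ := hd.exists_right_inv
  set D : B := algebraMap A B d with hD
  set E : B := algebraMap A B e with hE
  have hDE : D * E = 1 := by rw [hD, hE, ← map_mul, he, map_one]
  set th : B := algebraMap A B (algebraMap ℚ A (1/3)) with hth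
  have h3 : 3 * th = 1 := by
    have : (3 : B) = algebraMap A B (algebraMap ℚ A 3) := by rw [map_ofNat, map_ofNat]
    rw [this, hth, ← map_mul, ← map_mul]; norm_num
  set F : B := s ^ 3 + D * t ^ 3 + D ^ 2 with hF
  have hFI : F ∈ I := by
    rw [← Ideal.Quotient.eq_zero_iff_mem, hF]
    simp only [map_add, map_mul, map_pow, hs, ht]
    have h := congrArg f (rel A d)
    rw [map_add, map_add, map_mul, map_pow, map_pow, map_pow, map_zero, AlgHom.commutes] at h
    exact h
  have hFF := hI' F hFI
  -- the corrected point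
  set c : B := th * E ^ 2 with hc
  have hnew : (s + F * c * s) ^ 3 + D * (t + F * c * t) ^ 3 + D ^ 2 = 0 := by
    have e1 : (s + F * c * s) ^ 3 + D * (t + F * c * t) ^ 3 + D ^ 2 =
        F + (3 * c) * F * (F - D ^ 2) + (F * F) * (3 * c ^ 2 + F * c ^ 3) * (F - D ^ 2) := by
      rw [hF]; ring
    rw [e1, hFF]
    have e2 : (3 * c) * D ^ 2 = 1 := by
      calc (3 * c) * D ^ 2 = (3 * th) * (D * E) ^ 2 := by rw [hc]; ring
        _ = 1 := by rw [h3, hDE]; ring
    have e3 : F + 3 * c * F * (F - D ^ 2) = F * (1 - 3 * c * D ^ 2) + 3 * c * (F * F) := by ring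
    rw [e3, e2, hFF]; ring
  refine ⟨pointHom (t + F * c * t) (s + F * c * s) hnew, ?_⟩
  have hF0 : (Ideal.Quotient.mk I) F = 0 := Ideal.Quotient.eq_zero_iff_mem.mpr hFI
  apply algHom_ext'
  · rw [AlgHom.comp_apply, pointHom_t]
    simp [hF0, ht]
  · rw [AlgHom.comp_apply, pointHom_s]
    simp [hF0, hs]

lemma smooth_cubic (A : Type) [CommRing A] [Algebra ℚ A] (d : A) (hd : IsUnit d) :
    Algebra.Smooth A (CubicRing A d) where
  formallySmooth := formallySmooth A d hd
  finitePresentation := inferInstance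

theorem smooth_spec (A : Type) [CommRing A] [Algebra ℚ A] (d : A) (hd : IsUnit d) :
    Smooth (Spec.map (CommRingCat.ofHom (algebraMap A (CubicRing A d)))) := by
  rw [HasRingHomProperty.Spec_iff (P := @Smooth)]
  have := smooth_cubic A d hd
  exact RingHom.smooth_algebraMap.mpr this

/-- If `s³ + d t³ + d² = 0` has a solution in `ℚ_ℓ` with `d ≠ 0`, then `3` divides the valuation. -/
lemma three_dvd_valuation {l : ℕ} [Fact l.Prime] {d s t : ℚ_[l]} (hd : d ≠ 0)
    (h : s ^ 3 + d * t ^ 3 + d ^ 2 = 0) : (3 : ℤ) ∣ d.valuation := by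
  -- equal norm cases
  have key : ∀ {a b : ℚ_[l]}, a ≠ 0 → b ≠ 0 → ‖a‖ = ‖b‖ → a.valuation = b.valuation := by
    intro a b ha hb hab
    rw [Padic.norm_eq_zpow_neg_valuation ha, Padic.norm_eq_zpow_neg_valuation hb] at hab
    have hl : (1 : ℝ) < l := by exact_mod_cast (Fact.out : l.Prime).one_lt
    have := zpow_right_injective₀ (by positivity) hl.ne' hab
    simpa using this
  have hd2 : d ^ 2 ≠ 0 := pow_ne_zero 2 hd
  by_cases hs : s = 0
  · -- `d t³ = - d²`
    have ht3 : t ^ 3 = -d := by
      have h' : d * (t ^ 3 + d) = 0 := by rw [← h, hs]; ring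
      rcases mul_eq_zero.mp h' with h' | h'
      · exact absurd h' hd
      · linear_combination h'
    have ht : t ≠ 0 := by
      rintro rfl
      apply hd
      have : (0 : ℚ_[l]) ^ 3 = 0 := by norm_num
      rw [this] at ht3
      simpa using ht3.symm
    have hv : (t ^ 3).valuation = d.valuation := by
      apply key (pow_ne_zero 3 ht) hd
      rw [ht3, norm_neg]
    rw [← hv, Padic.valuation_pow]
    exact ⟨_, rfl⟩
  by_cases ht : t = 0
  · have hs3 : s ^ 3 = -d ^ 2 := by
      rw [ht] at h; linear_combination h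
    have hv : (s ^ 3).valuation = (d ^ 2).valuation := by
      apply key (pow_ne_zero 3 hs) hd2
      rw [hs3, norm_neg]
    rw [Padic.valuation_pow, Padic.valuation_pow] at hv
    push_cast at hv
    omega
  have hs3 : s ^ 3 ≠ 0 := pow_ne_zero 3 hs
  have ht3 : d * t ^ 3 ≠ 0 := mul_ne_zero hd (pow_ne_zero 3 ht)
  have hvs : (s ^ 3).valuation = 3 * s.valuation := by rw [Padic.valuation_pow]; norm_num
  have hvt : (d * t ^ 3).valuation = d.valuation + 3 * t.valuation := by
    rw [Padic.valuation_mul hd (pow_ne_zero 3 ht), Padic.valuation_pow]; norm_num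
  have hvd : (d ^ 2).valuation = 2 * d.valuation := by rw [Padic.valuation_pow]; norm_num
  by_contra hdiv
  have h12 : ‖s ^ 3‖ ≠ ‖d * t ^ 3‖ := by
    intro hh
    have := key hs3 ht3 hh
    rw [hvs, hvt] at this
    apply hdiv; omega
  have h13 : ‖s ^ 3‖ ≠ ‖d ^ 2‖ := by
    intro hh
    have := key hs3 hd2 hh
    rw [hvs, hvd] at this
    apply hdiv; omega
  have h23 : ‖d * t ^ 3‖ ≠ ‖d ^ 2‖ := by
    intro hh
    have := key ht3 hd2 hh
    rw [hvt, hvd] at this
    apply hdiv; omega
  have hmax := IsUltrametricDist.norm_add_eq_max_of_norm_ne_norm h12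
  have h3 : ‖s ^ 3 + d * t ^ 3‖ = ‖d ^ 2‖ := by
    rw [← norm_neg (d ^ 2)]
    congr 1
    linear_combination h
  rw [hmax] at h3
  rcases max_choice ‖s ^ 3‖ ‖d * t ^ 3‖ with h4 | h4
  · rw [h4] at h3; exact h13 h3
  · rw [h4] at h3; exact h23 h3

lemma nat_cube {n : ℕ} (hn : n ≠ 0) (h : ∀ l : ℕ, l.Prime → 3 ∣ n.factorization l) :
    ∃ m : ℕ, n = m ^ 3 := by
  refine ⟨Nat.floorRoot 3 n, ?_⟩
  apply Nat.eq_of_factorization_eq hn
  · exact pow_ne_zero 3 (Nat.floorRoot_ne_zero.mpr ⟨by norm_num, hn⟩)
  · intro p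
    rw [Nat.factorization_pow, Nat.factorization_floorRoot]
    simp only [Finsupp.smul_apply, smul_eq_mul, Finsupp.floorDiv_apply]
    by_cases hp : p.Prime
    · rw [Nat.floorDiv_eq_div, Nat.mul_div_cancel' (h p hp)]
    · simp [Nat.factorization_eq_zero_of_not_prime _ hp]

lemma rat_cube {d : ℚ} (hd : d ≠ 0) (h : ∀ l : ℕ, l.Prime → (3 : ℤ) ∣ padicValRat l d) :
    ∃ c : ℚ, d = c ^ 3 := by
  have hnum : d.num.natAbs ≠ 0 := by simpa using hd
  have hval : ∀ l : ℕ, l.Prime → (3 ∣ d.num.natAbs.factorization l) ∧ (3 ∣ d.den.factorization l) := by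
    intro l hl
    have hl' : Fact l.Prime := ⟨hl⟩
    have h1 := h l hl
    rw [padicValRat_def, padicValInt] at h1
    rw [Nat.factorization_def _ hl, Nat.factorization_def _ hl]
    by_cases hdiv : l ∣ d.den
    · have hnd : ¬ l ∣ d.num.natAbs := by
        intro hn
        have := Nat.dvd_gcd hn hdiv
        rw [d.reduced] at this
        exact hl.one_lt.ne' (Nat.dvd_one.mp this)
      rw [padicValNat.eq_zero_of_not_dvd hnd] at h1 ⊢
      refine ⟨dvd_zero _, ?_⟩
      rw [Nat.cast_zero, zero_sub, dvd_neg] at h1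
      exact_mod_cast h1
    · rw [padicValNat.eq_zero_of_not_dvd hdiv] at h1 ⊢
      refine ⟨?_, dvd_zero _⟩
      rw [Nat.cast_zero, sub_zero] at h1
      exact_mod_cast h1
  obtain ⟨a, ha⟩ := nat_cube hnum fun l hl => (hval l hl).1
  obtain ⟨b, hb⟩ := nat_cube d.den_ne_zero fun l hl => (hval l hl).2
  rcases Int.natAbs_eq d.num with hs | hs
  · refine ⟨a / b, ?_⟩
    rw [div_pow, ← Rat.num_div_den d, hs, ha, hb]
    push_cast; rfl
  · refine ⟨-a / b, ?_⟩
    rw [div_pow, ← Rat.num_div_den d, hs, ha, hb]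
    push_cast; ring

/-- Fermat for exponent `3`. -/
lemma eq_zero_of_cube_add_one {x c : ℚ} (h : x ^ 3 + 1 = c ^ 3) (hc : c ≠ 0) : x = 0 := by
  by_contra hx
  have := fermatLastTheoremFor_iff_rat.mp fermatLastTheoremThree x 1 c hx one_ne_zero hc
  apply this
  rw [one_pow]; exact h

section general

variable {X U E : Scheme.{0}} (π : X ⟶ U) (j : U ⟶ E)

lemma mem_range_genericPoint [IsOpenImmersion j] [Nonempty U] [IrreducibleSpace E] :
    genericPoint E ∈ Set.range j := by
  have h : (j.opensRange : Set E).Nonempty := by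
    obtain ⟨u⟩ := ‹Nonempty U›
    exact ⟨j u, ⟨u, rfl⟩⟩
  have := (genericPoint_spec E).mem_open_set_iff j.opensRange.2
  have h2 := this.mpr (by simpa using h)
  exact h2

lemma geomIrred_generic [IsOpenImmersion j] [Nonempty U] [IrreducibleSpace E]
    [GeometricallyIrreducible π] :
    GeometricallyIrreducible ((π ≫ j).fiberToSpecResidueField (genericPoint E)) := by
  rw [geometricallyIrreducible_iff]
  intro K _ y V fst snd hV
  have hpb : IsPullback (fst ≫ pullback.fst _ _) snd (π ≫ j)
      (y ≫ E.fromSpecResidueField (genericPoint E)) :=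
    hV.paste_horiz (IsPullback.of_hasPullback (π ≫ j) (E.fromSpecResidueField (genericPoint E)))
  have hr : Set.range (y ≫ E.fromSpecResidueField (genericPoint E)) ⊆ Set.range j := by
    rintro _ ⟨x, rfl⟩
    have : (E.fromSpecResidueField (genericPoint E)) (y x) ∈
      Set.range (E.fromSpecResidueField (genericPoint E)) := ⟨_, rfl⟩
    rw [Scheme.range_fromSpecResidueField, Set.mem_singleton_iff] at this
    simp only [Scheme.Hom.comp_apply]
    rw [this]
    exact mem_range_genericPoint j
  have hq := IsOpenImmersion.lift_fac j (y ≫ E.fromSpecResidueField (genericPoint E)) hr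
  set q := IsOpenImmersion.lift j (y ≫ E.fromSpecResidueField (genericPoint E)) hr
  rw [← hq] at hpb
  have hw : (fst ≫ pullback.fst _ _) ≫ π = snd ≫ q := by
    rw [← cancel_mono j, Category.assoc, Category.assoc]
    exact hpb.w
  have hpb' : IsPullback (fst ≫ pullback.fst _ _) snd π q := by
    refine ⟨⟨hw⟩, ⟨PullbackCone.IsLimit.mk hw
      (fun s => hpb.lift s.fst s.snd (by
        rw [← Category.assoc, ← Category.assoc, s.condition]))
      (fun s => hpb.lift_fst _ _ _) (fun s => hpb.lift_snd _ _ _) ?_⟩⟩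
    intro s m h1 h2
    apply hpb.hom_ext
    · rw [h1, hpb.lift_fst]
    · rw [h2, hpb.lift_snd]
  exact GeometricallyIrreducible.geometrically_irreducibleSpace _ _ _ hpb'

end general

/-! ### The family over the affine Weierstrass curve -/

section family

variable (W : WeierstrassCurve ℚ) (a : ℚ)

/-- the coordinate `x` of the affine Weierstrass curve -/
noncomputable def xR : W.toAffine.CoordinateRing := AdjoinRoot.of W.toAffine.polynomial X

/-- the coordinate `y` of the affine Weierstrass curve -/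
noncomputable def yR : W.toAffine.CoordinateRing := AdjoinRoot.root W.toAffine.polynomial

/-- the function `(x - a)³ + 1` -/
noncomputable def hR : W.toAffine.CoordinateRing :=
  (xR W - algebraMap ℚ W.toAffine.CoordinateRing a) ^ 3 + 1

/-- the coordinate ring of the open subset where `(x - a)³ + 1` does not vanish -/
noncomputable abbrev Rh : Type := Localization.Away (hR W a)

/-- `(x - a)³ + 1` as a unit -/
noncomputable def dR : Rh W a := algebraMap W.toAffine.CoordinateRing (Rh W a) (hR W a)

lemma isUnit_dR : IsUnit (dR W a) := IsLocalization.Away.algebraMap_isUnit _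

/-- the total space is `Spec` of this ring -/
noncomputable abbrev TR : Type := CubicRing (Rh W a) (dR W a)

/-- the family of cubic curves -/
noncomputable def piMap : Spec (.of (TR W a)) ⟶ Spec (.of (Rh W a)) :=
  Spec.map (CommRingCat.ofHom (algebraMap (Rh W a) (TR W a)))

/-- the open immersion of the base of the family -/
noncomputable def jMap : Spec (.of (Rh W a)) ⟶ projCurve W :=
  Spec.map (CommRingCat.ofHom (algebraMap W.toAffine.CoordinateRing (Rh W a))) ≫ openChart W

/-- the fibration -/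
noncomputable def phiMap : Spec (.of (TR W a)) ⟶ projCurve W := piMap W a ≫ jMap W a

lemma ringHom_ext_R {B : Type} [CommRing B] (f g : W.toAffine.CoordinateRing →+* B)
    (hx : f (xR W) = g (xR W)) (hy : f (yR W) = g (yR W)) : f = g := by
  apply AdjoinRoot.ringHom_ext
  · apply Polynomial.ringHom_ext
    · intro r
      exact DFunLike.congr_fun (RingHom.ext_rat ((f.comp (AdjoinRoot.of _)).comp C)
        ((g.comp (AdjoinRoot.of _)).comp C)) r
    · exact hx
  · exact hy

/-- the equation of the curve in the coordinate ring -/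
lemma eqR : yR W ^ 2 + algebraMap ℚ _ W.a₁ * xR W * yR W + algebraMap ℚ _ W.a₃ * yR W =
    xR W ^ 3 + algebraMap ℚ _ W.a₂ * xR W ^ 2 + algebraMap ℚ _ W.a₄ * xR W +
      algebraMap ℚ _ W.a₆ := by
  have h : AdjoinRoot.mk W.toAffine.polynomial (X ^ 2 +
    C (C W.a₁ * X + C W.a₃) * X -
    C (X ^ 3 + C W.a₂ * X ^ 2 + C W.a₄ * X + C W.a₆)) = 0 := AdjoinRoot.mk_self
  simp only [map_add, map_mul, map_pow, map_sub] at h
  have hc : ∀ r : ℚ, algebraMap ℚ W.toAffine.CoordinateRing r =
    AdjoinRoot.mk W.toAffine.polynomial (C (C r)) := fun r => rfl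
  simp only [hc, xR, yR]
  change AdjoinRoot.mk W.toAffine.polynomial X ^ 2 + _ * AdjoinRoot.mk W.toAffine.polynomial (C X) *
    AdjoinRoot.mk W.toAffine.polynomial X + _ * AdjoinRoot.mk W.toAffine.polynomial X =
    AdjoinRoot.mk W.toAffine.polynomial (C X) ^ 3 + _ *
      AdjoinRoot.mk W.toAffine.polynomial (C X) ^ 2 + _ *
      AdjoinRoot.mk W.toAffine.polynomial (C X) + _
  linear_combination h

/-- evaluation at a rational point -/
noncomputable def evR {b : ℚ} (h : W.toAffine.Equation a b) : W.toAffine.CoordinateRing →+* ℚ :=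
  AdjoinRoot.lift (evalRingHom a) b (by
    have h' : evalEval a b W.toAffine.polynomial = 0 := h
    rw [eval₂_evalRingHom]
    exact h')

lemma evR_x {b : ℚ} (h : W.toAffine.Equation a b) : evR W a h (xR W) = a := by
  simp [evR, xR]

lemma evR_y {b : ℚ} (h : W.toAffine.Equation a b) : evR W a h (yR W) = b := by
  simp [evR, yR]

lemma ringHom_rat {B : Type} [CommRing B] [Algebra ℚ B] (f : B →+* ℚ) (r : ℚ) :
    f (algebraMap ℚ B r) = r := by
  exact DFunLike.congr_fun (RingHom.ext_rat (f.comp (algebraMap ℚ B)) (RingHom.id ℚ)) r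

lemma evR_h {b : ℚ} (h : W.toAffine.Equation a b) : evR W a h (hR W a) = 1 := by
  rw [hR, map_add, map_pow, map_sub, evR_x, ringHom_rat, map_one]
  ring

end family

section fibration

variable (W : WeierstrassCurve ℚ) {a b : ℚ} (hab : W.toAffine.Equation a b)

include hab in
lemma hR_ne_zero : hR W a ≠ 0 := by
  intro h
  have := evR_h W a hab
  rw [h, map_zero] at this
  exact zero_ne_one this

include hab in
lemma isDomain_Rh : IsDomain (Rh W a) :=
  IsLocalization.isDomain_localization (by
    rw [Submonoid.powers_le]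
    exact mem_nonZeroDivisors_of_ne_zero (hR_ne_zero W hab))

instance : IsNoetherianRing (Rh W a) :=
  IsLocalization.isNoetherianRing (Submonoid.powers (hR W a)) _ inferInstance

instance : Smooth (piMap W a) := smooth_spec (Rh W a) (dR W a) (isUnit_dR W a)

instance : GeometricallyIntegral (piMap W a) := geomIntegral (Rh W a) (dR W a) (isUnit_dR W a)

instance : IsOpenImmersion (jMap W a) := by
  unfold jMap
  infer_instance

include hab in
lemma isIntegral_total : IsIntegral (Spec (.of (TR W a))) := by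
  have := isDomain_Rh W hab
  exact GeometricallyIntegral.isIntegral_of_isLocallyNoetherian (piMap W a)

include hab in
lemma isDominant_phi : IsDominant (phiMap W a) := by
  have := isDomain_Rh W hab
  have h1 : IsDominant (jMap W a) := by
    refine ⟨?_⟩
    refine IsOpen.dense (jMap W a).isOpenEmbedding.isOpen_range ?_
    obtain ⟨u⟩ := (inferInstance : Nonempty (Spec (.of (Rh W a))))
    exact ⟨_, ⟨u, rfl⟩⟩
  unfold phiMap
  infer_instance

lemma finiteType_total : Algebra.FiniteType ℚ (TR W a) := by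
  have h1 : Algebra.FinitePresentation ℚ W.toAffine.CoordinateRing := inferInstance
  have h2 : Algebra.FiniteType W.toAffine.CoordinateRing (Rh W a) :=
    IsLocalization.finiteType_of_monoid_fg (Submonoid.powers (hR W a)) _
  have h3 : Algebra.FiniteType (Rh W a) (TR W a) := inferInstance
  have h4 : Algebra.FiniteType ℚ (Rh W a) := Algebra.FiniteType.trans inferInstance h2
  exact Algebra.FiniteType.trans h4 h3

include hab in
lemma isVariety : IsIntegralVariety (Spec (.of (TR W a))) := by
  refine ⟨isIntegral_total W hab, Spec.map (CommRingCat.ofHom (algebraMap ℚ (TR W a))), ?_, ?_, ?_⟩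
  · infer_instance
  · rw [HasRingHomProperty.Spec_iff (P := @LocallyOfFiniteType)]
    have := finiteType_total W (a := a)
    exact (RingHom.finiteType_algebraMap).mpr this
  · infer_instance

include hab in
lemma isFibration_phi : IsFibration (phiMap W a) where
  variety := isVariety W hab
  dominant := isDominant_phi W hab
  smooth := by
    have : Smooth (phiMap W a) := by
      unfold phiMap
      infer_instance
    exact inferInstanceAs (Smooth (pullback.snd (phiMap W a)
      ((projCurve W).fromSpecResidueField (genericPoint (projCurve W)))))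
  geomIrred := by
    have := isDomain_Rh W hab
    exact geomIrred_generic (piMap W a) (jMap W a)

end fibration

/-! ### The soluble locus -/

section locus

variable (W : WeierstrassCurve ℚ) (a : ℚ)

/-- the rational point of the curve given by a ring homomorphism -/
noncomputable def ratPoint (f : Rh W a →+* ℚ) : Spec (.of ℚ) ⟶ projCurve W :=
  Spec.map (CommRingCat.ofHom f) ≫ jMap W a

/-- a rational point with a `K`-point in the fibre comes from the open subset, and there is a
solution of the cubic equation in `K` -/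
lemma exists_of_point {K : Type} [Field K] [Algebra ℚ K] (p : Spec (.of ℚ) ⟶ projCurve W)
    (g : Spec (.of K) ⟶ pullback (phiMap W a) p) :
    ∃ f : Rh W a →+* ℚ, p = ratPoint W a f ∧ ∃ s t : K,
      s ^ 3 + algebraMap ℚ K (f (dR W a)) * t ^ 3 + algebraMap ℚ K (f (dR W a)) ^ 2 = 0 := by
  have hw : (g ≫ pullback.fst _ _) ≫ piMap W a ≫ jMap W a = (g ≫ pullback.snd _ _) ≫ p := by
    rw [Category.assoc, Category.assoc, ← pullback.condition]
    rfl
  have hr : Set.range p ⊆ Set.range (jMap W a) := by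
    rintro _ ⟨x, rfl⟩
    obtain ⟨k⟩ := (inferInstance : Nonempty (Spec (.of K)))
    have hx : x = (g ≫ pullback.snd _ _) k := Subsingleton.elim (α := PrimeSpectrum ℚ) _ _
    rw [hx, ← Scheme.Hom.comp_apply, ← hw, ← Category.assoc, Scheme.Hom.comp_apply]
    exact ⟨_, rfl⟩
  have hq := IsOpenImmersion.lift_fac (jMap W a) p hr
  set q := IsOpenImmersion.lift (jMap W a) p hr
  obtain ⟨f, hf⟩ := Spec.map_surjective q
  obtain ⟨α, hα⟩ := Spec.map_surjective (g ≫ pullback.fst (phiMap W a) p)
  obtain ⟨γ, hγ⟩ := Spec.map_surjective (g ≫ pullback.snd (phiMap W a) p)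
  refine ⟨f.hom, ?_, ?_⟩
  · rw [← hq, ← hf]; rfl
  have hcomp : (g ≫ pullback.fst _ _) ≫ piMap W a = (g ≫ pullback.snd _ _) ≫ q := by
    rw [← cancel_mono (jMap W a), Category.assoc _ q, hq, Category.assoc]
    exact hw
  rw [← hα, ← hγ, ← hf, piMap, ← Spec.map_comp, ← Spec.map_comp] at hcomp
  have hring := Spec.map_injective hcomp
  have hrel := congrArg α.hom (rel (Rh W a) (dR W a))
  have hd : α.hom (algebraMap (Rh W a) (TR W a) (dR W a)) = algebraMap ℚ K (f.hom (dR W a)) := by
    have h1 := congrArg (fun m => m.hom (dR W a)) hring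
    simp only [CommRingCat.hom_comp, RingHom.comp_apply, CommRingCat.hom_ofHom] at h1
    rw [h1]
    exact DFunLike.congr_fun (RingHom.ext_rat γ.hom (algebraMap ℚ K)) _
  refine ⟨α.hom (sC _ _), α.hom (tC _ _), ?_⟩
  rw [map_add, map_add, map_mul, map_pow, map_pow, map_pow, map_zero] at hrel
  rw [hd] at hrel
  exact hrel

lemma ratPoint_injective : Function.Injective (ratPoint W a) := by
  intro f g h
  have h1 := (cancel_mono (jMap W a)).mp h
  have h2 := Spec.map_injective h1
  exact congrArg CommRingCat.Hom.hom h2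

lemma apply_dR (f : Rh W a →+* ℚ) :
    f (dR W a) = (f (algebraMap W.toAffine.CoordinateRing (Rh W a) (xR W)) - a) ^ 3 + 1 := by
  change f (algebraMap W.toAffine.CoordinateRing (Rh W a)
    ((xR W - algebraMap ℚ W.toAffine.CoordinateRing a) ^ 3 + 1)) = _
  rw [map_add, map_pow, map_sub, map_one, map_add, map_pow, map_sub, map_one]
  congr 3
  exact ringHom_rat (f.comp (algebraMap W.toAffine.CoordinateRing (Rh W a))) a

/-- a point of the soluble locus has `x = a` -/
lemma x_eq_of_mem {p : Spec (.of ℚ) ⟶ projCurve W} (hp : p ∈ solubleLocus (phiMap W a)) :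
    ∃ f : Rh W a →+* ℚ, p = ratPoint W a f ∧
      f (algebraMap W.toAffine.CoordinateRing (Rh W a) (xR W)) = a := by
  obtain ⟨-, hp⟩ := hp
  have h2 : Fact (Nat.Prime 2) := ⟨Nat.prime_two⟩
  obtain ⟨g⟩ := hp 2
  obtain ⟨f, hf, -⟩ := exists_of_point W a p g
  refine ⟨f, hf, ?_⟩
  have hunit : f (dR W a) ≠ 0 := ((isUnit_dR W a).map f).ne_zero
  have hval : ∀ l : ℕ, l.Prime → (3 : ℤ) ∣ padicValRat l (f (dR W a)) := by
    intro l hl
    have : Fact l.Prime := ⟨hl⟩
    obtain ⟨g⟩ := hp l
    obtain ⟨f', hf', s, t, hst⟩ := exists_of_point W a p g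
    obtain rfl : f = f' := ratPoint_injective W a (hf.symm.trans hf')
    have h3 := three_dvd_valuation (d := algebraMap ℚ ℚ_[l] (f (dR W a)))
      (by simpa using hunit) hst
    rw [eq_ratCast, Padic.valuation_ratCast] at h3
    exact h3
  obtain ⟨c, hc⟩ := rat_cube hunit hval
  have hc0 : c ≠ 0 := by
    rintro rfl
    apply hunit
    rw [hc]; norm_num
  rw [apply_dR] at hc
  exact sub_eq_zero.mp (eq_zero_of_cube_add_one hc hc0)

lemma finite_ringHoms : {f : Rh W a →+* ℚ |
    f (algebraMap W.toAffine.CoordinateRing (Rh W a) (xR W)) = a}.Finite := by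
  have hq : (X ^ 2 + (C (W.a₁ * a + W.a₃) * X +
      C (-(a ^ 3 + W.a₂ * a ^ 2 + W.a₄ * a + W.a₆))) : ℚ[X]) ≠ 0 := by
    apply Monic.ne_zero
    monicity!
  have hfin := ((X ^ 2 + (C (W.a₁ * a + W.a₃) * X +
      C (-(a ^ 3 + W.a₂ * a ^ 2 + W.a₄ * a + W.a₆))) : ℚ[X])).rootSet_finite ℚ
  refine Set.Finite.of_finite_image (f := fun f =>
    f (algebraMap W.toAffine.CoordinateRing (Rh W a) (yR W))) (hfin.subset ?_) ?_
  · rintro _ ⟨f, hf, rfl⟩
    rw [mem_rootSet]
    refine ⟨hq, ?_⟩
    have h := congrArg (f.comp (algebraMap W.toAffine.CoordinateRing (Rh W a))) (eqR W)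
    have hf' : (f.comp (algebraMap W.toAffine.CoordinateRing (Rh W a))) (xR W) = a := hf
    simp only [map_add, map_mul, map_pow, ringHom_rat, hf'] at h
    simp only [RingHom.comp_apply] at h
    simp only [map_add, map_mul, map_pow, aeval_X, aeval_C, map_neg]
    simp only [eq_ratCast, Rat.cast_id]
    linear_combination h
  · intro f hf g hg hfg
    apply IsLocalization.ringHom_ext (Submonoid.powers (hR W a))
    apply ringHom_ext_R
    · exact hf.trans hg.symm
    · exact hfg

lemma finite_locus : (solubleLocus (phiMap W a)).Finite := by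
  refine ((finite_ringHoms W a).image (ratPoint W a)).subset ?_
  intro p hp
  obtain ⟨f, hf, hfa⟩ := x_eq_of_mem W a hp
  exact ⟨f, hfa, hf.symm⟩

variable {a}

lemma everywhereLocallySoluble_of_rat {Y : Scheme.{0}} (g : Spec (.of ℚ) ⟶ Y) :
    EverywhereLocallySoluble Y :=
  ⟨⟨Spec.map (CommRingCat.ofHom (algebraMap ℚ ℝ)) ≫ g⟩,
    fun l _ => ⟨Spec.map (CommRingCat.ofHom (algebraMap ℚ ℚ_[l])) ≫ g⟩⟩

lemma nonempty_locus {b : ℚ} (hab : W.toAffine.Equation a b) :
    (solubleLocus (phiMap W a)).Nonempty := by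
  -- the rational point of the base
  have hu : IsUnit (evR W a hab (hR W a)) := by rw [evR_h]; exact isUnit_one
  let f : Rh W a →+* ℚ := IsLocalization.Away.lift (hR W a) hu
  have hf : f (dR W a) = 1 := by
    change f (algebraMap _ _ _) = 1
    rw [IsLocalization.Away.lift_eq, evR_h]
  -- the rational point of the fibre
  let _ : Algebra (Rh W a) ℚ := f.toAlgebra
  have hst : (-1 : ℚ) ^ 3 + algebraMap (Rh W a) ℚ (dR W a) * (0 : ℚ) ^ 3 +
      algebraMap (Rh W a) ℚ (dR W a) ^ 2 = 0 := by
    have : algebraMap (Rh W a) ℚ (dR W a) = 1 := hf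
    rw [this]; norm_num
  let α : TR W a →ₐ[Rh W a] ℚ := pointHom (0 : ℚ) (-1) hst
  have hα : (Spec.map (CommRingCat.ofHom (α : TR W a →+* ℚ))) ≫ phiMap W a = ratPoint W a f := by
    rw [phiMap, ratPoint, piMap, ← Category.assoc, ← Spec.map_comp, ← CommRingCat.ofHom_comp]
    congr 3
    exact α.comp_algebraMap
  refine ⟨ratPoint W a f, ?_⟩
  exact everywhereLocallySoluble_of_rat (pullback.lift
    (Spec.map (CommRingCat.ofHom (α : TR W a →+* ℚ))) (𝟙 _) (by rw [hα, Category.id_comp]))

end locus

/-- The elliptic curve `y² = x³ - x + 1`. -/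
def exampleCurve : WeierstrassCurve ℚ := ⟨0, 0, 0, -1, 1⟩

lemma exampleCurve_isElliptic : exampleCurve.IsElliptic := by
  rw [WeierstrassCurve.isElliptic_iff]
  have : exampleCurve.Δ = -368 := by
    simp [WeierstrassCurve.Δ, WeierstrassCurve.b₂, WeierstrassCurve.b₄, WeierstrassCurve.b₆,
      WeierstrassCurve.b₈, exampleCurve]
    norm_num
  rw [this]
  exact IsUnit.mk0 _ (by norm_num)

lemma norm_one_add {z : ℚ_[2]} (hz : ‖z‖ < 1) : ‖1 + z‖ = 1 := by
  have h : ‖(1 : ℚ_[2])‖ ≠ ‖z‖ := by rw [norm_one]; exact hz.ne'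
  rw [IsUltrametricDist.norm_add_eq_max_of_norm_ne_norm h, norm_one]
  exact max_eq_left hz.le

lemma norm_add_lt {z w : ℚ_[2]} (hz : ‖z‖ < 1) (hw : ‖w‖ < 1) : ‖z + w‖ < 1 :=
  (IsUltrametricDist.norm_add_le_max z w).trans_lt (max_lt hz hw)

lemma norm_four : ‖(4 : ℚ_[2])‖ = 1 / 4 := by
  have h : (4 : ℚ_[2]) = (2 : ℚ_[2]) ^ 2 := by norm_num
  have h2 : ‖(2 : ℚ_[2])‖ = 2⁻¹ := by
    have := Padic.norm_p (p := 2)
    exact_mod_cast this
  rw [h, norm_pow, h2]
  norm_num

/-- Doubling multiplies the `2`-adic size of the `x`-coordinate by `4`. -/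
lemma norm_double {x x' : ℚ} (hx : 1 < ‖(x : ℚ_[2])‖)
    (h : x' * (4 * (x ^ 3 - x + 1)) = x ^ 4 + 2 * x ^ 2 - 8 * x + 1) :
    ‖(x' : ℚ_[2])‖ = 4 * ‖(x : ℚ_[2])‖ := by
  set X : ℚ_[2] := (x : ℚ_[2]) with hX
  have hX0 : X ≠ 0 := by
    intro h0; rw [h0, norm_zero] at hx; linarith
  set w : ℚ_[2] := X⁻¹ with hw
  have hwn : ‖w‖ < 1 := by rw [hw, norm_inv]; exact inv_lt_one_of_one_lt₀ hx
  have hXw : X * w = 1 := mul_inv_cancel₀ hX0
  have hpow : ∀ n : ℕ, ‖w ^ (n + 1)‖ < 1 := by
    intro n; rw [norm_pow]; exact pow_lt_one₀ (norm_nonneg _) hwn (by omega)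
  have hcast : (x' : ℚ_[2]) * (4 * (X ^ 3 - X + 1)) = X ^ 4 + 2 * X ^ 2 - 8 * X + 1 := by
    rw [hX]; exact_mod_cast congrArg (fun q : ℚ => (q : ℚ_[2])) h
  have hmain : (x' : ℚ_[2]) * (4 * (1 + (-w ^ 2 + w ^ 3))) =
      X * (1 + ((2 * w ^ 2 + (-8) * w ^ 3) + w ^ 4)) := by
    have e1 : X ^ 3 * (1 + (-w ^ 2 + w ^ 3)) = X ^ 3 - X + 1 := by
      linear_combination (-X * (X * w + 1) + (X ^ 2 * w ^ 2 + X * w + 1)) * hXw
    have e2 : X ^ 4 * (1 + ((2 * w ^ 2 + (-8) * w ^ 3) + w ^ 4)) = X ^ 4 + 2 * X ^ 2 - 8 * X + 1 := by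
      linear_combination (2 * X ^ 2 * (X * w + 1) - 8 * X * (X ^ 2 * w ^ 2 + X * w + 1) +
        (X ^ 3 * w ^ 3 + X ^ 2 * w ^ 2 + X * w + 1)) * hXw
    have h3 : X ^ 3 ≠ 0 := pow_ne_zero 3 hX0
    apply mul_left_cancel₀ h3
    linear_combination hcast - e2 + 4 * (x' : ℚ_[2]) * e1
  have hn := congrArg norm hmain
  have hb1 : ‖(2 : ℚ_[2]) * w ^ 2‖ < 1 := by
    rw [norm_mul]
    have : ‖(2 : ℚ_[2])‖ ≤ 1 := by exact_mod_cast Padic.norm_int_le_one (p := 2) 2
    nlinarith [hpow 1, norm_nonneg (w ^ 2), norm_nonneg (2 : ℚ_[2])]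
  have hb2 : ‖(-8 : ℚ_[2]) * w ^ 3‖ < 1 := by
    rw [norm_mul]
    have : ‖(-8 : ℚ_[2])‖ ≤ 1 := by exact_mod_cast Padic.norm_int_le_one (p := 2) (-8)
    nlinarith [hpow 2, norm_nonneg (w ^ 3), norm_nonneg (-8 : ℚ_[2])]
  have hn1 : ‖(1 : ℚ_[2]) + (-w ^ 2 + w ^ 3)‖ = 1 := by
    apply norm_one_add
    apply norm_add_lt
    · rw [norm_neg]; exact hpow 1
    · exact hpow 2
  have hn2 : ‖(1 : ℚ_[2]) + ((2 * w ^ 2 + (-8) * w ^ 3) + w ^ 4)‖ = 1 := by
    apply norm_one_add
    apply norm_add_lt (norm_add_lt hb1 hb2) (hpow 3)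
  rw [norm_mul, norm_mul, norm_mul, hn1, hn2, norm_four] at hn
  linarith

/-- the `2`-adic size of the `x`-coordinate -/
noncomputable def size : exampleCurve.toAffine.Point → ℝ
  | .zero => 0
  | .some x _ _ => ‖(x : ℚ_[2])‖

lemma size_double (P : exampleCurve.toAffine.Point) (hP : 1 < size P) :
    size (P + P) = 4 * size P := by
  cases P with
  | zero => simp only [size] at hP; linarith
  | some x y h =>
    have heq : y ^ 2 = x ^ 3 - x + 1 := by
      have := (WeierstrassCurve.Affine.equation_iff _ _).mp h.1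
      simp [exampleCurve] at this
      linear_combination this
    have hx : 1 < ‖(x : ℚ_[2])‖ := hP
    have hy0 : y ≠ 0 := by
      rintro rfl
      -- then `x³ - x + 1 = 0`, impossible since `|x| > 1`
      have h0 : x ^ 3 - x + 1 = 0 := by rw [← heq]; norm_num
      have hX0 : (x : ℚ_[2]) ≠ 0 := by
        intro h0; rw [h0, norm_zero] at hx; linarith
      have hc : (x : ℚ_[2]) ^ 3 = (x : ℚ_[2]) + (-1) := by
        have : (x : ℚ_[2]) ^ 3 - (x : ℚ_[2]) + 1 = 0 := by exact_mod_cast h0
        linear_combination this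
      have hn := congrArg norm hc
      have h1 : ‖(x : ℚ_[2]) + (-1)‖ ≤ ‖(x : ℚ_[2])‖ := by
        refine (IsUltrametricDist.norm_add_le_max _ _).trans ?_
        rw [norm_neg, norm_one]
        exact (max_eq_left hx.le).le
      rw [norm_pow] at hn
      nlinarith [hn, h1, hx, mul_pos (sub_pos.mpr hx) (sub_pos.mpr hx)]
    have hneg : y ≠ exampleCurve.toAffine.negY x y := by
      simp only [WeierstrassCurve.Affine.negY, exampleCurve]
      intro h; apply hy0; linarith
    rw [WeierstrassCurve.Affine.Point.add_self_of_Y_ne hneg]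
    simp only [size]
    apply norm_double hx
    rw [WeierstrassCurve.Affine.slope_of_Y_ne rfl hneg]
    have hl : (3 * x ^ 2 + 2 * exampleCurve.toAffine.a₂ * x + exampleCurve.toAffine.a₄ -
        exampleCurve.toAffine.a₁ * y) / (y - exampleCurve.toAffine.negY x y) =
        (3 * x ^ 2 - 1) / (2 * y) := by
      simp only [WeierstrassCurve.Affine.negY, exampleCurve]
      congr 1 <;> ring
    rw [hl]
    set l : ℚ := (3 * x ^ 2 - 1) / (2 * y) with hldef
    have hl2 : l * (2 * y) = 3 * x ^ 2 - 1 := by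
      rw [hldef]; field_simp
    simp only [WeierstrassCurve.Affine.addX, exampleCurve]
    rw [← heq]
    linear_combination (l * (2 * y) + (3 * x ^ 2 - 1)) * hl2 - 8 * x * heq

theorem exampleCurve_infinite : ∃ P : exampleCurve.toAffine.Point, ¬ IsOfFinAddOrder P := by
  have hns : exampleCurve.toAffine.Nonsingular (1 / 4) (7 / 8) := by
    rw [WeierstrassCurve.Affine.nonsingular_iff]
    constructor
    · rw [WeierstrassCurve.Affine.equation_iff]
      simp [exampleCurve]; norm_num
    · right
      simp [exampleCurve]; norm_num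
  refine ⟨.some _ _ hns, ?_⟩
  set P : exampleCurve.toAffine.Point := .some _ _ hns with hP
  have hsize : size P = 4 := by
    simp only [hP, size]
    push_cast
    rw [norm_div, norm_one, norm_four]; norm_num
  have hpow : ∀ n : ℕ, size ((2 ^ n : ℕ) • P) = 4 ^ (n + 1) := by
    intro n
    induction n with
    | zero => simp [hsize]
    | succ n ih =>
      have h1 : (2 ^ (n + 1) : ℕ) • P = (2 ^ n : ℕ) • P + (2 ^ n : ℕ) • P := by
        rw [← add_smul]; congr 1; ring
      rw [h1, size_double, ih]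
      · ring
      · rw [ih]; exact one_lt_pow₀ (by norm_num) (by omega)
  intro hfin
  have hf : (AddSubmonoid.multiples P : Set exampleCurve.toAffine.Point).Finite :=
    finite_multiples.mpr hfin
  refine Set.infinite_of_injective_forall_mem (f := fun n : ℕ => (2 ^ n : ℕ) • P) ?_ ?_ hf
  · intro m n hmn
    have := congrArg size hmn
    simp only [hpow] at this
    have h2 := pow_right_injective₀ (by norm_num : (0:ℝ) < 4) (by norm_num) this
    simpa using h2
  · intro n
    exact ⟨2 ^ n, rfl⟩

/-! ### The theorem -/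

/-- The Mordell-Weil group `W(ℚ)` has positive rank: it contains a point of infinite order. -/
def HasPositiveRank (W : WeierstrassCurve ℚ) : Prop :=
  ∃ P : W.toAffine.Point, ¬ IsOfFinAddOrder P

/-- There are elliptic curves of positive rank over `ℚ`, and every such elliptic curve `E` is the
base of a fibration `φ : X ⟶ E` (with `X` an integral variety, `φ` dominant and even smooth,
generic fibre smooth and geometrically irreducible) for which the set `Z(φ)` of rational points
with everywhere locally soluble fibre is finite and nonempty. -/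
theorem result :
    (∃ W : WeierstrassCurve ℚ, W.IsElliptic ∧ HasPositiveRank W) ∧
    ∀ W : WeierstrassCurve ℚ, W.IsElliptic → HasPositiveRank W →
      ∃ (X : Scheme.{0}) (φ : X ⟶ projCurve W), IsFibration φ ∧ Smooth φ ∧
        (solubleLocus φ).Finite ∧ (solubleLocus φ).Nonempty := by
  refine ⟨⟨exampleCurve, exampleCurve_isElliptic, exampleCurve_infinite⟩, ?_⟩
  intro W _ hW
  obtain ⟨P, hP⟩ := hW
  cases P with
  | zero => exact absurd IsOfFinAddOrder.zero hP
  | some a b hab =>
    refine ⟨Spec (.of (TR W a)), phiMap W a, isFibration_phi W hab.1, ?_, finite_locus W a,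
      nonempty_locus W hab.1⟩
    unfold phiMap
    infer_instance

end Pool.Agent.Results.MP_024832_nt.FiniteSolubleLocus
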